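import Pool.Agent.H87.AQ.Targets

/-! N2: virtual pairs (module of the board aq_modules, MP_657073_al). -/

namespace Pool.Agent.H62.AQ

open AMq

theorem dg_pow {ℓ : ℕ} {Dg : ℕ → Prop} {T : ℕ → ℕ → Prop} (hC : Clos ℓ Dg T) (k : ℕ)
    (hk : 0 < k) : Dg (ℓ ^ k) := by
  induction k with
  | zero => exact absurd hk (lt_irrefl 0)
  | succ k ih =>
    rcases Nat.eq_zero_or_pos k with h | h
    · subst h
      simpa using hC.dl
    · rw [pow_succ]
      exact hC.dm _ _ (ih h) hC.dl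

/-- an inverse of `ℓ` -/
theorem dg_inv {ℓ : ℕ} {Dg : ℕ → Prop} {T : ℕ → ℕ → Prop}
    (hC : Clos ℓ Dg T) (n : ℕ) (hn : n.Coprime ℓ) (hn0 : 0 < n) :
    ∃ k, Dg k ∧ ℓ * k ≡ 1 [MOD n] := by
  have hphi : 0 < n.totient := Nat.totient_pos.mpr hn0
  refine ⟨ℓ ^ (2 * n.totient - 1), dg_pow hC _ (by omega), ?_⟩
  rw [← pow_succ']
  have h1 : 2 * n.totient - 1 + 1 = n.totient * 2 := by omega
  rw [h1, pow_mul]
  have h2 := Nat.ModEq.pow_totient hn.symm
  exact (h2.pow 2).trans (by rw [one_pow])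

theorem coprime_pos {ℓ n : ℕ} (hℓ : ℓ.Prime) (hn : n.Coprime ℓ) : 0 < n := by
  rcases Nat.eq_zero_or_pos n with h | h
  · subst h
    rw [Nat.coprime_zero_left] at hn
    exact absurd hn hℓ.one_lt.ne'
  · exact h

theorem dg_dense (h : T_N1) {ℓ : ℕ} (hℓ : ℓ.Prime) {Dg : ℕ → Prop} {T : ℕ → ℕ → Prop}
    (hC : Clos ℓ Dg T) (m : ℕ) : 0 < m → ∀ n : ℕ, n.Coprime ℓ → ∃ m', Dg m' ∧ m' ≡ m [MOD n] := by
  induction m using Nat.strong_induction_on with
  | _ m ih =>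
    intro hm n hn
    have hn0 := coprime_pos hℓ hn
    rcases Nat.lt_or_ge 1 m with h1 | h1
    · set r := m.minFac with hr
      have hrp : r.Prime := Nat.minFac_prime h1.ne'
      obtain ⟨m0, hm0⟩ := Nat.minFac_dvd m
      rw [← hr] at hm0
      have hm0pos : 0 < m0 := by
        rcases Nat.eq_zero_or_pos m0 with h | h
        · rw [h, mul_zero] at hm0; omega
        · exact h
      have hlt : m0 < m := by
        rw [hm0]
        have := hrp.two_le
        nlinarith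
      obtain ⟨m0', hd0, hm0'⟩ := ih m0 hlt hm0pos n hn
      by_cases hrl : r = ℓ
      · refine ⟨ℓ * m0', hC.dm _ _ hC.dl hd0, ?_⟩
        rw [hm0, hrl]
        exact Nat.ModEq.mul_left _ hm0'
      · have hco : (r * n).Coprime ℓ := Nat.Coprime.mul_left
          ((Nat.coprime_primes hrp hℓ).mpr hrl) hn
        obtain ⟨k, hk, hk1⟩ := dg_inv hC (r * n) hco (Nat.mul_pos hrp.pos hn0)
        have h2 := (h r hrp).2.1 n _ _ hk1
        rw [(h r hrp).2.2.2.1] at h2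
        refine ⟨th r (ℓ * k) * m0', hC.dm _ _ (hC.dt r hrp hrl k hk) hd0, ?_⟩
        rw [hm0]
        exact Nat.ModEq.mul h2 hm0'
    · have hm1 : m = 1 := by omega
      subst hm1
      refine ⟨ℓ ^ n.totient, dg_pow hC _ (Nat.totient_pos.mpr hn0), ?_⟩
      exact Nat.ModEq.pow_totient hn.symm

end Pool.Agent.H62.AQ

open Pool.Agent.H62.AQ in
theorem AMq.n2 (h : AMq.T_N1) : AMq.T_N2 := by
  intro ℓ hℓ Dg T hC
  refine ⟨?_, ?_, ?_⟩
  · intro a b c d hab hcd n hn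
    obtain ⟨a', b', h1, h2, h3⟩ := hab n hn
    obtain ⟨c', d', h4, h5, h6⟩ := hcd n hn
    exact ⟨_, _, hC.tm _ _ _ _ h1 h4, h2.mul h5, h3.mul h6⟩
  · intro a b c hab n hn
    obtain ⟨a', b', h1, h2, h3⟩ := hab n hn
    have hn0 := coprime_pos hℓ hn
    obtain ⟨m', hm, hm'⟩ : ∃ m', Dg m' ∧ m' ≡ c [MOD n] := by
      rcases Nat.eq_zero_or_pos c with hc | hc
      · obtain ⟨m', hm, hm'⟩ := dg_dense h hℓ hC n hn0 n hn
        refine ⟨m', hm, hm'.trans ?_⟩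
        rw [hc]
        exact (Nat.modEq_zero_iff_dvd.mpr (dvd_refl n))
      · exact dg_dense h hℓ hC c hc n hn
    exact ⟨_, _, hC.td _ _ _ hm h1, hm'.mul h2, hm'.mul h3⟩
  · intro q hq hql a b hab n hn
    have hn0 := coprime_pos hℓ hn
    have hco : (q * n).Coprime ℓ := Nat.Coprime.mul_left
      ((Nat.coprime_primes hq hℓ).mpr hql) hn
    obtain ⟨a', b', h1, h2, h3⟩ := hab (q * n) hco
    obtain ⟨k, hk, hk1⟩ := dg_inv hC (q * n) hco (Nat.mul_pos hq.pos hn0)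
    have h4 : ∀ x x', x' ≡ x [MOD q * n] → ℓ * (k * x') ≡ x [MOD q * n] := by
      intro x x' hx
      rw [← mul_assoc]
      have := hk1.mul hx
      rwa [one_mul] at this
    exact ⟨_, _, hC.tt q hq hql _ _ (hC.td _ _ _ hk h1), (h q hq).2.1 n _ _ (h4 a a' h2),
      (h q hq).2.1 n _ _ (h4 b b' h3)⟩
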