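import Pool.Agent.H87.AQ.Targets

/-! N5: roots (module of the board aq_modules, MP_657073_al). -/

theorem AMq.n5 : AMq.T_N5 := by
  intro q hq C hC E
  rcases Nat.eq_zero_or_pos E with hE | hE
  · subst hE
    refine ⟨1, one_pos, hq.one_lt.ne' ∘ Nat.dvd_one.mp, ?_⟩
    rw [pow_zero]
    exact Nat.modEq_one
  have hCq : ¬ q ∣ C := by
    intro h
    have h1 : q ∣ 1 := (Nat.ModEq.dvd_iff hC (dvd_refl q)).mp h
    exact hq.one_lt.ne' (Nat.dvd_one.mp h1)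
  have hC0 : 0 < C := by
    rcases Nat.eq_zero_or_pos C with h | h
    · exact absurd (h ▸ dvd_zero q) hCq
    · exact h
  have hpow : C ^ q ^ E ≡ 1 [MOD q ^ E] := by
    have h1 : (q : ℤ) ∣ (C : ℤ) - 1 := by
      have := (Nat.modEq_iff_dvd.mp hC.symm)
      simpa using this
    have h2 := dvd_sub_pow_of_dvd_sub h1 E
    rw [one_pow] at h2
    have h3 : ((q ^ E : ℕ) : ℤ) ∣ ((C ^ q ^ E : ℕ) : ℤ) - ((1 : ℕ) : ℤ) := by
      push_cast
      exact dvd_trans (pow_dvd_pow _ (Nat.le_succ E)) h2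
    exact (Nat.modEq_iff_dvd.mpr h3).symm
  have hco : (q - 1).Coprime (q ^ E) := by
    apply Nat.Coprime.pow_right
    have h1 : (q - 1).Coprime (q - 1 + 1) := by simp
    rwa [Nat.sub_add_cancel hq.one_le] at h1
  obtain ⟨N, -, hN⟩ := Nat.exists_mul_mod_eq_one_of_coprime hco (Nat.one_lt_pow hE.ne' hq.one_lt)
  refine ⟨C ^ N, Nat.pow_pos hC0, fun h => hCq (hq.dvd_of_dvd_pow h), ?_⟩
  have h1 : (C ^ N) ^ (q - 1) = C * (C ^ q ^ E) ^ ((q - 1) * N / q ^ E) := by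
    rw [← pow_mul, ← pow_mul, ← pow_succ']
    congr 1
    have := Nat.div_add_mod ((q - 1) * N) (q ^ E)
    rw [hN] at this
    rw [mul_comm N]
    exact this.symm
  rw [h1]
  calc C * (C ^ q ^ E) ^ ((q - 1) * N / q ^ E) ≡ C * 1 ^ ((q - 1) * N / q ^ E) [MOD q ^ E] :=
        Nat.ModEq.mul_left _ (Nat.ModEq.pow _ hpow)
    _ = C := by rw [one_pow, mul_one]
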