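import Pool.Agent.H87.AQ.Targets

/-! N8: the final arithmetic statement (module of the board aq_modules, MP_657073_al). -/

namespace Pool.Agent.H62.AQ

open AMq

theorem n8_claim (h4 : T_N4) (h6 : T_N6) (h7 : T_N7) {ℓ : ℕ} (hℓ : ℓ.Prime)
    {V : ℕ → ℕ → Prop} (hV : VC ℓ V) (hne : ∃ a b, Vp V 1 a b) (n : ℕ) :
    n.Coprime ℓ → ∀ M : ℕ, M.Coprime n → M.Coprime ℓ → ∀ i j : ℕ, ∃ a b, V a b ∧
      a ≡ i [MOD n] ∧ b ≡ j [MOD n] ∧ a ≡ 1 [MOD M] ∧ b ≡ 1 [MOD M] := by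
  induction n using Nat.recOnPosPrimePosCoprime with
  | prime_pow q k hq hk =>
    intro hn M hMn hMl i j
    have hk0 : k ≠ 0 := hk.ne'
    have hql : q ≠ ℓ := by
      rintro rfl
      have h1 : Nat.Coprime q q := (Nat.coprime_pow_left_iff hk _ _).mp hn
      rw [Nat.coprime_self] at h1
      exact hq.one_lt.ne' h1
    have hMq : M.Coprime q := (Nat.coprime_pow_right_iff hk _ _).mp hMn
    have hM0 : 0 < M := by
      rcases Nat.eq_zero_or_pos M with h | h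
      · subst h
        rw [Nat.coprime_zero_left] at hMl
        exact absurd hMl hℓ.one_lt.ne'
      · exact h
    obtain ⟨a, b, hab, hval⟩ := h6 ℓ hℓ V hV q hq hql M hM0 hMq (h4 ℓ hℓ V hV hne M hMl)
    rcases hval with ⟨h1, h2⟩ | ⟨h1, h2⟩
    · obtain ⟨a', b', h3, h5, h8⟩ := h7 ℓ hℓ V hV q hq hql M hM0 hMq a b hab h1 h2 k i j
      exact ⟨a', b', h3.1, h5, h8, h3.2.2.2.2.1, h3.2.2.2.2.2⟩
    · have hV' : VC ℓ (fun a b => V b a) :=
        ⟨fun a b c d h h' => hV.mul _ _ _ _ h h', fun a b c h => hV.sc _ _ _ h,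
          fun q hq hql a b h => hV.th q hq hql _ _ h⟩
      obtain ⟨a', b', h3, h5, h8⟩ := h7 ℓ hℓ (fun a b => V b a) hV' q hq hql M hM0 hMq b a
        ⟨hab.1, hab.2.1.symm, hab.2.2.2.1, hab.2.2.1, hab.2.2.2.2.2, hab.2.2.2.2.1⟩ h1 h2 k j i
      exact ⟨b', a', h3.1, h8, h5, h3.2.2.2.2.2, h3.2.2.2.2.1⟩
  | zero =>
    intro hn
    rw [Nat.coprime_zero_left] at hn
    exact absurd hn hℓ.one_lt.ne'
  | one =>
    intro _ M _ hMl i j
    obtain ⟨a, b, hab⟩ := h4 ℓ hℓ V hV hne M hMl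
    exact ⟨a, b, hab.1, Nat.modEq_one, Nat.modEq_one, hab.2.2.2.2.1, hab.2.2.2.2.2⟩
  | coprime x y hx hy hxy ihx ihy =>
    intro hn M hMn hMl i j
    have hxl : x.Coprime ℓ := Nat.Coprime.coprime_mul_right hn
    have hyl : y.Coprime ℓ := Nat.Coprime.coprime_mul_left hn
    have hMx : M.Coprime x := Nat.Coprime.coprime_mul_right_right hMn
    have hMy : M.Coprime y := Nat.Coprime.coprime_mul_left_right hMn
    obtain ⟨a1, b1, hV1, ha1, hb1, ha1', hb1'⟩ := ihx hxl (y * M)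
      (Nat.Coprime.mul_left hxy.symm hMx) (Nat.Coprime.mul_left hyl hMl) i j
    obtain ⟨a2, b2, hV2, ha2, hb2, ha2', hb2'⟩ := ihy hyl (x * M)
      (Nat.Coprime.mul_left hxy hMy) (Nat.Coprime.mul_left hxl hMl) i j
    have c1 : ∀ {u v w z : ℕ}, u ≡ v [MOD w * z] → u ≡ v [MOD w] := fun h =>
      h.of_mul_right _
    have c2 : ∀ {u v w z : ℕ}, u ≡ v [MOD w * z] → u ≡ v [MOD z] := fun h =>
      h.of_mul_left _
    refine ⟨a1 * a2, b1 * b2, hV.mul _ _ _ _ hV1 hV2, ?_, ?_, ?_, ?_⟩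
    · rw [← Nat.modEq_and_modEq_iff_modEq_mul hxy]
      refine ⟨?_, ?_⟩
      · have := ha1.mul (c1 ha2'); rwa [mul_one] at this
      · have := (c1 ha1').mul ha2; rwa [one_mul] at this
    · rw [← Nat.modEq_and_modEq_iff_modEq_mul hxy]
      refine ⟨?_, ?_⟩
      · have := hb1.mul (c1 hb2'); rwa [mul_one] at this
      · have := (c1 hb1').mul hb2; rwa [one_mul] at this
    · have := (c2 ha1').mul (c2 ha2'); rwa [mul_one] at this
    · have := (c2 hb1').mul (c2 hb2'); rwa [mul_one] at this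

end Pool.Agent.H62.AQ

open Pool.Agent.H62.AQ in
theorem AMq.n8 (h2 : AMq.T_N2) (h4 : AMq.T_N4) (h6 : AMq.T_N6) (h7 : AMq.T_N7) : AMq.T_N8 := by
  intro ℓ hℓ Dg T hC hT hne n hn i j
  have hV : AMq.VC ℓ (AMq.Vt ℓ T) := h2 ℓ hℓ Dg T hC
  have hne' : ∃ a b, AMq.Vp (AMq.Vt ℓ T) 1 a b := by
    obtain ⟨a, b, hab⟩ := hne
    obtain ⟨h1, h3, h5⟩ := hT a b hab
    exact ⟨a, b, fun m _ => ⟨a, b, hab, Nat.ModEq.refl _, Nat.ModEq.refl _⟩, h1, h3, h5,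
      Nat.modEq_one, Nat.modEq_one⟩
  obtain ⟨a, b, hab, hi, hj, _, _⟩ := n8_claim h4 h6 h7 hℓ hV hne' n hn 1
    (Nat.coprime_one_left n) (Nat.coprime_one_left ℓ) i j
  obtain ⟨a', b', h1, h3, h5⟩ := hab n hn
  exact ⟨a', b', h1, h3.trans hi, h5.trans hj⟩
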